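import Mathlib
import Pool.Agent.H30.Sigma

set_option autoImplicit false

namespace Pool.Agent.Results.MP_f0fa00_gt.Sigma

open Set Filter Topology

/-- Selectively highly divergent spaces. -/
def SHD (X : Type*) [TopologicalSpace X] : Prop :=
  ∀ U : ℕ → Set X, (∀ n, IsOpen (U n) ∧ (U n).Nonempty) → ∃ x : ℕ → X, (∀ n, x n ∈ U n) ∧
    ∀ φ : ℕ → ℕ, StrictMono φ → ∀ p : X, ¬ Tendsto (x ∘ φ) atTop (𝓝 p)

open Pool.Agent.H30.Sigma in
theorem result : ∃ (X : Type) (_ : TopologicalSpace X) (D : Set X), CompactSpace X ∧ T2Space X ∧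
    SHD X ∧ Dense D ∧ ¬ SHD D := by
  refine ⟨K, inferInstance, D, inferInstance, inferInstance, shd, dense_cnt, fun h => ?_⟩
  obtain ⟨x, -, hx⟩ := h (fun _ => univ) fun _ => ⟨isOpen_univ, ⟨⟨fun _ => false, by simp [D]⟩, trivial⟩⟩
  obtain ⟨φ, hφ, p, hp⟩ := seq x
  exact hx φ hφ p hp

end Pool.Agent.Results.MP_f0fa00_gt.Sigma
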